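import Pool.Agent.R671.LE.Choosable

/-! List edge colouring: first the edges inside `A`, then the edges that leave `A`. -/

set_option autoImplicit false

namespace Pool.Agent.R163.LE

open Pool.Agent.R671.LE Pool.Agent.R671.LE.Ch

variable {V : Type}

/-- `G` can be properly edge-coloured from all lists of size at least `k`. -/
def Choos (G : SimpleGraph V) (k : ℕ) : Prop :=
  ∀ L : G.edgeSet → Finset ℕ, (∀ e, k ≤ (L e).card) →
    ∃ c : G.edgeSet → ℕ, (∀ e, c e ∈ L e) ∧ ∀ e e', G.lineGraph.Adj e e' → c e ≠ c e'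

section

variable [Fintype V] [DecidableEq V]

open Classical in
/-- out-degrees among the cross edges -/
theorem outdeg (G : SimpleGraph V) (A : Set V) (r : ℕ) (f : V → V → ℕ)
    (hf1 : ∀ x ∈ A, ∀ y, y ∉ A → ∀ y', y' ∉ A → G.Adj x y → G.Adj x y' →
      f x y = f x y' → y = y')
    (hf2 : ∀ y, y ∉ A → ∀ x ∈ A, ∀ x' ∈ A, G.Adj x y → G.Adj x' y →
      f x y = f x' y → x = x')
    (hf3 : ∀ x ∈ A, ∀ y, y ∉ A → G.Adj x y → inDeg G A x < f x y ∧ f x y ≤ r)
    (E : Finset (Sym2 V)) (hE : ∀ e ∈ E, e ∈ G.edgeSet) (hEc : ∀ e ∈ E, ¬ Inner A e)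
    (x y : V) (hx : x ∈ A) (hy : y ∉ A) (he : s(x, y) ∈ E) :
    (E.filter (fun d => Dm A f d s(x, y))).card < r - inDeg G A x := by
  have hadj : G.Adj x y := hE _ he
  obtain ⟨h31, h32⟩ := hf3 x hx y hy hadj
  have hC1 : ((Finset.univ.filter (fun z => z ∉ A ∧ G.Adj x z ∧ f x z < f x y)).image
      (fun z => s(x, z))).card ≤ f x y - 1 - inDeg G A x := by
    refine Finset.card_image_le.trans ?_
    have h1 : (Finset.univ.filter (fun z => z ∉ A ∧ G.Adj x z ∧ f x z < f x y)).card ≤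
        (Finset.Ioo (inDeg G A x) (f x y)).card := by
      apply Finset.card_le_card_of_injOn (fun z => f x z)
      · intro z hz
        rw [Finset.mem_coe, Finset.mem_filter] at hz
        rw [Finset.mem_coe, Finset.mem_Ioo]
        exact ⟨(hf3 x hx z hz.2.1 hz.2.2.1).1, hz.2.2.2⟩
      · intro z hz z' hz' h
        rw [Finset.mem_coe, Finset.mem_filter] at hz hz'
        exact hf1 x hx z hz.2.1 z' hz'.2.1 hz.2.2.1 hz'.2.2.1 h
    rw [Nat.card_Ioo] at h1
    omega
  have hC2 : ((Finset.univ.filter (fun z => z ∈ A ∧ G.Adj z y ∧ f x y < f z y)).image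
      (fun z => s(z, y))).card ≤ r - f x y := by
    refine Finset.card_image_le.trans ?_
    have h1 : (Finset.univ.filter (fun z => z ∈ A ∧ G.Adj z y ∧ f x y < f z y)).card ≤
        (Finset.Ioc (f x y) r).card := by
      apply Finset.card_le_card_of_injOn (fun z => f z y)
      · intro z hz
        rw [Finset.mem_coe, Finset.mem_filter] at hz
        rw [Finset.mem_coe, Finset.mem_Ioc]
        exact ⟨hz.2.2.2, (hf3 z hz.2.1 y hy hz.2.2.1).2⟩
      · intro z hz z' hz' h
        rw [Finset.mem_coe, Finset.mem_filter] at hz hz'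
        exact hf2 y hy z hz.2.1 z' hz'.2.1 hz.2.2.1 hz'.2.2.1 h
    rwa [Nat.card_Ioc] at h1
  have hsub : E.filter (fun d => Dm A f d s(x, y)) ⊆
      (Finset.univ.filter (fun z => z ∉ A ∧ G.Adj x z ∧ f x z < f x y)).image
        (fun z => s(x, z)) ∪
      (Finset.univ.filter (fun z => z ∈ A ∧ G.Adj z y ∧ f x y < f z y)).image
        (fun z => s(z, y)) := by
    intro d hd
    rw [Finset.mem_filter] at hd
    obtain ⟨hd1, hd2⟩ := hd
    rw [Finset.mem_union]
    rcases hd2 with ⟨h2, _⟩ | ⟨a, ha, b, hb, b', hb', h2, h3, h4⟩ |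
      ⟨a, ha, a', ha', b, hb, h2, h3, h4⟩
    · exact absurd h2 (hEc d hd1)
    · obtain ⟨rfl, rfl⟩ := cross_eq hx hy ha hb' h3
      refine Or.inl (Finset.mem_image.2 ⟨b, ?_, h2.symm⟩)
      rw [Finset.mem_filter]
      refine ⟨Finset.mem_univ _, hb, ?_, h4⟩
      rw [h2] at hd1
      exact hE _ hd1
    · obtain ⟨rfl, rfl⟩ := cross_eq hx hy ha' hb h3
      refine Or.inr (Finset.mem_image.2 ⟨a, ?_, h2.symm⟩)
      rw [Finset.mem_filter]
      refine ⟨Finset.mem_univ _, ha, ?_, h4⟩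
      rw [h2] at hd1
      exact hE _ hd1
  have h1 := (Finset.card_le_card hsub).trans (Finset.card_union_le _ _)
  omega

end

/-- First colour inside `A`, then outside. -/
theorem glue [Fintype V] (G H : SimpleGraph V) (A : Set V)
    (hH : ∀ x y, H.Adj x y ↔ G.Adj x y ∧ x ∈ A ∧ y ∈ A)
    (hB : ∀ x y, G.Adj x y → x ∈ A ∨ y ∈ A) (r : ℕ) (hch : Choos H r) (f : V → V → ℕ)
    (hf1 : ∀ x ∈ A, ∀ y ∉ A, ∀ y' ∉ A, G.Adj x y → G.Adj x y' → f x y = f x y' → y = y')
    (hf2 : ∀ y ∉ A, ∀ x ∈ A, ∀ x' ∈ A, G.Adj x y → G.Adj x' y → f x y = f x' y → x = x')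
    (hf3 : ∀ x ∈ A, ∀ y ∉ A, G.Adj x y → inDeg G A x < f x y ∧ f x y ≤ r) : Choos G r := by
  classical
  intro L hL
  -- edges as members of `Sym2 V`
  have hHG : ∀ e, e ∈ H.edgeSet → e ∈ G.edgeSet := by
    intro e
    induction e using Sym2.ind with
    | _ a b =>
      intro h
      exact ((hH a b).1 h).1
  have hHA : ∀ e, e ∈ H.edgeSet → ∀ z ∈ e, z ∈ A := by
    intro e
    induction e using Sym2.ind with
    | _ a b =>
      intro h z hz
      have := (hH a b).1 h
      rw [Sym2.mem_iff] at hz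
      rcases hz with rfl | rfl
      · exact this.2.1
      · exact this.2.2
  have hGH : ∀ e, e ∈ G.edgeSet → e ∉ H.edgeSet → ¬ Inner A e := by
    intro e
    induction e using Sym2.ind with
    | _ a b =>
      intro h hn hi
      rw [inner_mk] at hi
      apply hn
      have h1 := hB a b h
      exact (hH a b).2 ⟨h, by tauto, by tauto⟩
  let Ls : Sym2 V → Finset ℕ := fun e => if h : e ∈ G.edgeSet then L ⟨e, h⟩ else ∅
  have hLs : ∀ e, e ∈ G.edgeSet → r ≤ (Ls e).card := by
    intro e he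
    simp only [Ls]
    rw [dif_pos he]
    exact hL _
  obtain ⟨c1, hc1, hc1'⟩ := hch (fun e => Ls e) (fun e => hLs e (hHG e e.2))
  let col1 : Sym2 V → ℕ := fun e => if h : e ∈ H.edgeSet then c1 ⟨e, h⟩ else 0
  let EH : Finset (Sym2 V) := Finset.univ.filter (fun e => e ∈ H.edgeSet)
  let R : V → Finset ℕ := fun x => (EH.filter (fun e => x ∈ e)).image col1
  have hR : ∀ x, (R x).card ≤ inDeg G A x := by
    intro x
    refine Finset.card_image_le.trans ?_
    refine le_trans (Finset.card_le_card ?_) (card_inner G A x EH (fun e he => hHG e (by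
      simpa [EH] using he)))
    intro e he
    rw [Finset.mem_filter] at he ⊢
    have heH : e ∈ H.edgeSet := by simpa [EH] using he.1
    exact ⟨he.1, fun a ha b hb _ => hHA e heH b hb, he.2⟩
  let EC : Finset (Sym2 V) := Finset.univ.filter (fun e => e ∈ G.edgeSet ∧ e ∉ H.edgeSet)
  have hEC : ∀ e, e ∈ EC ↔ e ∈ G.edgeSet ∧ e ∉ H.edgeSet := fun e => by simp [EC]
  obtain ⟨col2, h21, h22⟩ := list_colour (fun a b => a ≠ b ∧ Share a b) (Dm A f) EC
    (fun S hS => kernel A f r EC
      (fun x hx y hy y' hy' h1 h2 h3 => hf1 x hx y hy y' hy' ((hEC _).1 h1).1 ((hEC _).1 h2).1 h3)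
      (fun y hy x hx x' hx' h1 h2 h3 => hf2 y hy x hx x' hx' ((hEC _).1 h1).1 ((hEC _).1 h2).1 h3)
      (fun x hx y hy h1 => (hf3 x hx y hy ((hEC _).1 h1).1).2) S hS)
    EC.card EC (fun e => (Ls e).filter (fun n => ∀ x ∈ A, x ∈ e → n ∉ R x))
    (Finset.Subset.refl _) rfl
    (fun e he => by
      have he' := (hEC e).1 he
      obtain ⟨x, hx, y, hy, rfl⟩ := cross (hGH e he'.1 he'.2)
      have h1 := outdeg G A r f (fun x hx y hy y' hy' => hf1 x hx y hy y' hy')
        (fun y hy x hx x' hx' => hf2 y hy x hx x' hx') (fun x hx y hy => hf3 x hx y hy) EC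
        (fun e he => ((hEC e).1 he).1) (fun e he => hGH e ((hEC e).1 he).1 ((hEC e).1 he).2)
        x y hx hy he
      have h2 : (Ls s(x, y) \ R x) ⊆
          (Ls s(x, y)).filter (fun n => ∀ z ∈ A, z ∈ s(x, y) → n ∉ R z) := by
        intro n hn
        rw [Finset.mem_sdiff] at hn
        rw [Finset.mem_filter]
        refine ⟨hn.1, fun z hz hzm => ?_⟩
        rw [Sym2.mem_iff] at hzm
        rcases hzm with rfl | rfl
        · exact hn.2
        · exact absurd hz hy
      have h3 := Finset.card_le_card h2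
      have h4 := Finset.le_card_sdiff (R x) (Ls s(x, y))
      have h5 := hLs s(x, y) he'.1
      have h6 := hR x
      omega)
  refine ⟨fun e => if (e : Sym2 V) ∈ H.edgeSet then col1 e else col2 e, ?_, ?_⟩
  · intro e
    have hLe : Ls (e : Sym2 V) = L e := by
      simp only [Ls]
      rw [dif_pos e.2]
    by_cases h : (e : Sym2 V) ∈ H.edgeSet
    · simp only [if_pos h]
      have h1 := hc1 ⟨e, h⟩
      simp only [col1]
      rw [dif_pos h, ← hLe]
      exact h1
    · simp only [if_neg h]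
      have h1 := h21 e ((hEC e).2 ⟨e.2, h⟩)
      rw [← hLe]
      exact (Finset.mem_filter.1 h1).1
  · intro e e' hadj
    rw [SimpleGraph.lineGraph_adj_iff_exists] at hadj
    obtain ⟨hne, v, hv, hv'⟩ := hadj
    have hne' : (e : Sym2 V) ≠ e' := fun h' => hne (Subtype.ext h')
    have mixed : ∀ (d d' : G.edgeSet), (d : Sym2 V) ∈ H.edgeSet → (d' : Sym2 V) ∉ H.edgeSet →
        v ∈ (d : Sym2 V) → v ∈ (d' : Sym2 V) → col1 d ≠ col2 d' := by
      intro d d' hd hd' hvd hvd' heq
      have h1 := h21 d' ((hEC d').2 ⟨d'.2, hd'⟩)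
      have h2 := (Finset.mem_filter.1 h1).2 v (hHA d hd v hvd) hvd'
      apply h2
      rw [← heq]
      refine Finset.mem_image_of_mem _ ?_
      rw [Finset.mem_filter]
      exact ⟨by simpa [EH] using hd, hvd⟩
    by_cases h : (e : Sym2 V) ∈ H.edgeSet <;> by_cases h' : (e' : Sym2 V) ∈ H.edgeSet
    · simp only [if_pos h, if_pos h']
      have h1 := hc1' ⟨e, h⟩ ⟨e', h'⟩ (by
        rw [SimpleGraph.lineGraph_adj_iff_exists]
        exact ⟨fun h'' => hne' (Subtype.mk.inj h''), v, hv, hv'⟩)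
      simp only [col1]
      rw [dif_pos h, dif_pos h']
      exact h1
    · simp only [if_pos h, if_neg h']
      exact mixed e e' h h' hv hv'
    · simp only [if_neg h, if_pos h']
      exact (mixed e' e h' h hv' hv).symm
    · simp only [if_neg h, if_neg h']
      exact h22 e ((hEC e).2 ⟨e.2, h⟩) e' ((hEC e').2 ⟨e'.2, h'⟩) ⟨hne', v, hv, hv'⟩

end Pool.Agent.R163.LE
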